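import Pool.Agent.Helper33.LMA.All

/-!
# The least `k` for which `k ^ 2 + k (n - k) + (n - k) ^ 2` has no small prime factor is of order `log n`, for almost all `n`

The number is `n ^ 2 - n k + k ^ 2`. First and second moment of the weighted number of the `k` for which it has no small prime factor,
over the `n` in a fixed class modulo the product of the small primes: fundamental lemma for the primes up to `M ^ δ'`, lower bound
sieve weights for the primes up to `M ^ δ`, `δ` absolute; first moment for the lower bound.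
-/

namespace Pool.Agent.Results.MP_d57c14_nt.AlmostAllLogRange

open Finset

/-- Every prime factor of `k ^ 2 + k (n - k) + (n - k) ^ 2` is at least `n ^ κ`. -/
def Rough (κ : ℝ) (n k : ℕ) : Prop :=
  ∀ q : ℕ, q.Prime → q ∣ k ^ 2 + k * (n - k) + (n - k) ^ 2 → (n : ℝ) ^ κ ≤ q

/-- The least `k ≥ 1` which is rough is larger than `c log n` and at most `C log n`: some `1 ≤ k ≤ C log n`, `k ≤ n / 2`, is such
that every prime factor of `k ^ 2 + k (n - k) + (n - k) ^ 2` is at least `n ^ κ` (and there are at most `2 / κ` prime factors,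
counted with multiplicity), and no `1 ≤ k ≤ c log n` has this property. -/
def OrderLog (c C κ : ℝ) (n : ℕ) : Prop :=
  (∃ k : ℕ, 1 ≤ k ∧ 2 * k ≤ n ∧ (k : ℝ) ≤ C * Real.log n ∧ Rough κ n k ∧
    (ArithmeticFunction.cardFactors (k ^ 2 + k * (n - k) + (n - k) ^ 2) : ℝ) ≤ 2 / κ) ∧
  ∀ k : ℕ, 1 ≤ k → (k : ℝ) ≤ c * Real.log n → ¬ Rough κ n k

open Classical in
/-- There is `κ₀ > 0` such that for every `0 < κ ≤ κ₀` and every `ε > 0` there are `c, C > 0` such that for all large `N` all but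
`ε N` of the integers `1 ≤ n ≤ N` are `OrderLog c C κ`. -/
theorem result :
    ∃ κ₀ : ℝ, 0 < κ₀ ∧ ∀ κ : ℝ, 0 < κ → κ ≤ κ₀ → ∀ ε : ℝ, 0 < ε → ∃ c C : ℝ, 0 < c ∧ 0 < C ∧
      ∃ N₀ : ℕ, ∀ N : ℕ, N₀ ≤ N →
        (((Icc 1 N).filter (fun n => ¬ OrderLog c C κ n)).card : ℝ) ≤ ε * N := by
  obtain ⟨κ₀, hκ₀, h⟩ := Pool.Agent.Helper33.LMA.order
  refine ⟨κ₀, hκ₀, fun κ hκ hκκ ε hε => ?_⟩
  obtain ⟨c, C, hc, hC, N₀, hN⟩ := h κ hκ hκκ ε hε
  exact ⟨c, C, hc, hC, N₀, fun N hNN => hN N hNN _ (filter_subset _ _) fun n hn => (mem_filter.1 hn).2⟩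

end Pool.Agent.Results.MP_d57c14_nt.AlmostAllLogRange
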