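import Pool.Agent.Helper30.LQ.All

/-!
# For infinitely many `n` no small `k` gives a prime `k ^ 2 + k (n - k) + (n - k) ^ 2`

The number is `n ^ 2 - n k + k ^ 2`. Erdős-Rankin type argument: `n ≡ 0` or `n ≡ 1` modulo the primes up to `x / 2`, the surviving
`k` are removed one by one by the primes `l ≡ 1 (mod 3)` in `(x / 2, x]`.
-/

namespace Pool.Agent.Results.MP_d57c14_nt.LeastKLower

/-- There is `c > 0` such that for infinitely many `n` all `1 ≤ k ≤ c log n log₂ n log₄ n / (log₃ n) ^ (3/2)` satisfy `k ≤ n / 2`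
and `k ^ 2 + k (n - k) + (n - k) ^ 2` is not prime. -/
theorem result : ∃ c : ℝ, 0 < c ∧ ∀ n₀ : ℕ, ∃ n : ℕ, n₀ ≤ n ∧ ∀ k : ℕ, 1 ≤ k →
    (k : ℝ) ≤ c * (Real.log n * Real.log (Real.log n) * Real.log (Real.log (Real.log (Real.log n))) /
      Real.log (Real.log (Real.log n)) ^ (3 / 2 : ℝ)) →
    2 * k ≤ n ∧ ¬ (k ^ 2 + k * (n - k) + (n - k) ^ 2).Prime :=
  Pool.Agent.Helper30.LQ.pFND

end Pool.Agent.Results.MP_d57c14_nt.LeastKLower
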