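import Pool.Agent.Helper98.LM.All2

/-!
# For every `C` a positive proportion of the `n` have no `k ≤ C log n` with `k ^ 2 + k (n - k) + (n - k) ^ 2` prime

The number is `n ^ 2 - n k + k ^ 2`. For `n` divisible by all primes `q ≡ 2 (mod 3)`, `q ≤ exp (K C ^ 2)`, only the `k` prime to these
`q` count, and an upper bound sieve with the primes `l ≡ 1 (mod 3)` bounds the number of the prime values.
-/

namespace Pool.Agent.Results.MP_d57c14_nt.NoSmallKProportion

open Finset

open Classical in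
/-- There is `K > 0` such that for every `C ≥ 1` and all large `N` at least `exp (- exp (K C ^ 2)) N` of the integers `1 ≤ n ≤ N` are
such that every integer `1 ≤ k ≤ C log n` satisfies `k ≤ n / 2` and `k ^ 2 + k (n - k) + (n - k) ^ 2` is not prime. -/
theorem result : ∃ K : ℝ, 0 < K ∧ ∀ C : ℝ, 1 ≤ C → ∃ N₀ : ℕ, ∀ N : ℕ, N₀ ≤ N →
    Real.exp (-Real.exp (K * C ^ 2)) * N ≤
      (((Icc 1 N).filter (fun n : ℕ => ∀ k : ℕ, 1 ≤ k → (k : ℝ) ≤ C * Real.log n →
        2 * k ≤ n ∧ ¬ (k ^ 2 + k * (n - k) + (n - k) ^ 2).Prime)).card : ℝ) :=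
  Pool.Agent.Helper98.LM.pNFI

end Pool.Agent.Results.MP_d57c14_nt.NoSmallKProportion
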