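import Pool.Agent.Helper33.LM.All3

/-!
# The proportion of the `n` which have a `k ≤ c log n` such that `k ^ 2 + k (n - k) + (n - k) ^ 2` has no prime factor below `n ^ κ` is of exact order `c`
-/

namespace Pool.Agent.Results.MP_d57c14_nt.ShortRangeProportion

open Finset

/-- Some integer `1 ≤ k ≤ c log n`, `k ≤ n / 2`, is such that every prime factor of `k ^ 2 + k (n - k) + (n - k) ^ 2` is at least
`n ^ κ`, and there are at most `2 / κ` prime factors, counted with multiplicity. -/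
def Good (c κ : ℝ) (n : ℕ) : Prop := ∃ k : ℕ, 1 ≤ k ∧ 2 * k ≤ n ∧ (k : ℝ) ≤ c * Real.log n ∧
  (∀ q : ℕ, q.Prime → q ∣ k ^ 2 + k * (n - k) + (n - k) ^ 2 → (n : ℝ) ^ κ ≤ q) ∧
  (ArithmeticFunction.cardFactors (k ^ 2 + k * (n - k) + (n - k) ^ 2) : ℝ) ≤ 2 / κ

open Classical in
/-- There are `κ₀, c₁ > 0` such that for every `0 < κ ≤ κ₀` there is `c₂ > 0` such that for every `0 < c ≤ 1` and all large `N` the
number of the integers `1 ≤ n ≤ N` which are `Good c κ` is at least `c₁ c N` and at most `c₂ c N`. -/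
theorem result :
    ∃ κ₀ c₁ : ℝ, 0 < κ₀ ∧ 0 < c₁ ∧ ∀ κ : ℝ, 0 < κ → κ ≤ κ₀ → ∃ c₂ : ℝ, 0 < c₂ ∧
      ∀ c : ℝ, 0 < c → c ≤ 1 → ∃ N₀ : ℕ, ∀ N : ℕ, N₀ ≤ N →
        c₁ * c * N ≤ (((Icc 1 N).filter (fun n => Good c κ n)).card : ℝ) ∧
        (((Icc 1 N).filter (fun n => Good c κ n)).card : ℝ) ≤ c₂ * c * N :=
  Pool.Agent.Helper33.LM.propOrder

end Pool.Agent.Results.MP_d57c14_nt.ShortRangeProportion
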